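import Pool.Agent.N566.VV.Stm4
import Pool.Agent.N11.VV.Tree

/-!
# Project VV (helper566), fourth part: the value of the closure of the tangle of a tree, with the
framing factor (helper700, after Pool.Agent.N11.VV.Tree of helper11)
-/

set_option autoImplicit false

namespace Pool.Agent.N700.VV

open Pool.Agent.H835R2.Knot Pool.Agent.N566.VV Pool.Agent.N11.VV
open Pool.Agent.H550R3.Jones (br brf Adm)
open Finset

theorem s_treee (h : S_TWE) : S_TREEE := by
  intro t D hD
  unfold treeW at hD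
  obtain ⟨D1, D3, rfl, hD1, hD3⟩ := List.map_eq_append_iff.1 hD
  obtain ⟨D0, E, rfl, hD0, hE⟩ := List.map_eq_append_iff.1 hD1
  obtain ⟨b0, b1, rfl⟩ : ∃ b0 b1, D0 = [.birth 0 b0, .birth 1 b1] := by
    rcases D0 with _ | ⟨a, _ | ⟨b, _ | ⟨c, l⟩⟩⟩
    · simp at hD0
    · simp at hD0
    · simp only [List.map_cons, List.map_nil, List.cons.injEq, and_true] at hD0
      obtain ⟨b0, rfl⟩ := plain_birth hD0.1
      obtain ⟨b1, rfl⟩ := plain_birth hD0.2
      exact ⟨b0, b1, rfl⟩
    · simp at hD0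
  obtain rfl : D3 = [.death 1, .death 0] := by
    rcases D3 with _ | ⟨a, _ | ⟨b, _ | ⟨c, l⟩⟩⟩
    · simp at hD3
    · simp at hD3
    · simp only [List.map_cons, List.map_nil, List.cons.injEq, and_true] at hD3
      rw [plain_death hD3.1, plain_death hD3.2]
    · simp at hD3
  set A2 : Front := (Piece.birth 1 b1).act ((Piece.birth 0 b0).act Front.empty) with hA2
  obtain ⟨c, hc⟩ := h t 0 E A2 hE
  refine ⟨c, fun N hN v hv σ => ?_⟩
  obtain ⟨e, hed⟩ : ∃ e : ℤ, e = c * ((N : ℤ) ^ 2 - 1) := ⟨_, rfl⟩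
  have he := hc N hN
  rw [← hed] at he ⊢
  obtain ⟨B, hB⟩ := opD_append (datJ N v) E [.death 1, .death 0] A2
  have h1 : val (datJ N v) ([.birth 0 b0, .birth 1 b1] ++ E ++ [.death 1, .death 0]) σ =
      Bl (datJ N v) 0 (Bl (datJ N v) 1 (v ^ e • Xl (tangle N v t) 0
        (Dl (datJ N v) 1 (Dl (datJ N v) 0 (fun _ => 1))))) σ := by
    have hDeq : ([.birth 0 b0, .birth 1 b1] ++ E ++ [.death 1, .death 0] : Word) =
      .birth 0 b0 :: .birth 1 b1 :: (E ++ [.death 1, .death 0]) := rfl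
    rw [hDeq, Pool.Agent.N566.VV.val, opD_cons', opP_birth', opD_cons', opP_birth', ← hA2, hB, he v hv, opD_cons',
      opP_death', opD_cons', opP_death', opD_nil']
  rw [h1]
  have hg : ∀ (x y : Fin N) (p : Fin N × Fin N),
      Dl (datJ N v) 1 (Dl (datJ N v) 0 (fun _ => 1)) (updS 0 p.1 p.2
        (insS 1 y (Fin.rev y) (insS 0 x (Fin.rev x) σ))) =
      if p = (x, y) then (datJ N v).d y * (datJ N v).d x else 0 := by
    intro x y p
    obtain ⟨p1, p2⟩ := p
    unfold Dl
    have e2 : updS 0 p1 p2 (insS 1 y (Fin.rev y) (insS 0 x (Fin.rev x) σ)) (1 + 1) = Fin.rev y := by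
      simp [updS, insS]
    have e1 : updS 0 p1 p2 (insS 1 y (Fin.rev y) (insS 0 x (Fin.rev x) σ)) 1 = p2 := by
      simp [updS]
    have e3 : delS 1 (updS 0 p1 p2 (insS 1 y (Fin.rev y) (insS 0 x (Fin.rev x) σ))) (0 + 1) =
        Fin.rev x := by
      simp [delS, updS, insS]
    have e4 : delS 1 (updS 0 p1 p2 (insS 1 y (Fin.rev y) (insS 0 x (Fin.rev x) σ))) 0 = p1 := by
      simp [delS, updS]
    rw [e2, e1, e3, e4]
    have r1 : (datJ N v).rev p2 = Fin.rev p2 := rfl
    have r2 : (datJ N v).rev p1 = Fin.rev p1 := rfl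
    rw [r1, r2]
    by_cases hy : p2 = y
    · by_cases hx : p1 = x
      · subst hy hx
        simp
      · have hx' : ¬ (Fin.rev x = Fin.rev p1) := fun h => hx (Fin.rev_injective h).symm
        simp [hy, hx, hx']
    · have hy' : ¬ (Fin.rev y = Fin.rev p2) := fun h => hy (Fin.rev_injective h).symm
      simp [hy, hy']
  have h2 : ∀ x y : Fin N, (v ^ e • Xl (tangle N v t) 0 (Dl (datJ N v) 1 (Dl (datJ N v) 0
      (fun _ => 1)))) (insS 1 y (Fin.rev y) (insS 0 x (Fin.rev x) σ)) =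
      v ^ e * (tangle N v t (x, y) (x, y) * ((datJ N v).d y * (datJ N v).d x)) := by
    intro x y
    change v ^ e * Xl (tangle N v t) 0 _ _ = _
    congr 1
    unfold Xl
    have e0 : insS 1 y (Fin.rev y) (insS 0 x (Fin.rev x) σ) 0 = x := by simp [insS]
    have e1 : insS 1 y (Fin.rev y) (insS 0 x (Fin.rev x) σ) (0 + 1) = y := by simp [insS]
    rw [e0, e1, sum_eq_single (x, y)]
    · rw [hg, if_pos rfl]
    · intro p _ hp
      rw [hg, if_neg hp, mul_zero]
    · intro hh
      exact absurd (mem_univ _) hh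
  have h3 : Bl (datJ N v) 0 (Bl (datJ N v) 1 (v ^ e • Xl (tangle N v t) 0
        (Dl (datJ N v) 1 (Dl (datJ N v) 0 (fun _ => 1))))) σ =
      ∑ x : Fin N, (datJ N v).c x * ∑ y : Fin N, (datJ N v).c y *
        (v ^ e * (tangle N v t (x, y) (x, y) * ((datJ N v).d y * (datJ N v).d x))) := by
    unfold Bl
    apply sum_congr rfl
    intro x _
    congr 1
    apply sum_congr rfl
    intro y _
    rw [← h2 x y]
    rfl
  rw [h3]
  unfold treeM
  simp only [mul_sum]
  apply sum_congr rfl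
  intro x _
  apply sum_congr rfl
  intro y _
  rw [← cd_eq N hN v hv x, ← cd_eq N hN v hv y]
  ring

end Pool.Agent.N700.VV
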